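import Mathlib

set_option linter.unusedSectionVars false

open Finset

namespace Pool.Agent.Results.MP_7e7d68_co.OrderOfGrowth

/-! ### Definitions used in the statement -/

/-- `G` is a bipartite graph with sides `A = Fin (2 * n)` and `B = Fin m` (every edge joins a vertex
of `A` to a vertex of `B`) with the pairing property: however `A` is split into `n` pairs
`{e (s, 0), e (s, 1)}`, `s : Fin n`, there are pairwise distinct `k s` in `B` such that `k s` is a
common neighbour of the two members of the pair number `s`. -/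
def PairingProperty (n m : ℕ) (G : SimpleGraph (Fin (2 * n) ⊕ Fin m)) : Prop :=
  G ≤ completeBipartiteGraph (Fin (2 * n)) (Fin m) ∧
  ∀ e : Fin n × Fin 2 ≃ Fin (2 * n), ∃ k : Fin n → Fin m, Function.Injective k ∧
    ∀ s : Fin n, G.Adj (Sum.inl (e (s, 0))) (Sum.inr (k s)) ∧
      G.Adj (Sum.inl (e (s, 1))) (Sum.inr (k s))

/-- The maximum degree among the vertices of the side `A`. -/
noncomputable def maxDegA {n m : ℕ} (G : SimpleGraph (Fin (2 * n) ⊕ Fin m)) : ℕ :=
  Finset.univ.sup fun a : Fin (2 * n) => (G.neighborSet (Sum.inl a)).ncard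

/-- `λ(n, m)`: the least maximum degree on the side `A` of a graph with the pairing property. -/
noncomputable def lamTwo (n m : ℕ) : ℕ :=
  sInf {d : ℕ | ∃ G : SimpleGraph (Fin (2 * n) ⊕ Fin m), PairingProperty n m G ∧ maxDegA G = d}

/-- `λ(n)`: the least value of `λ(n, m)` over all integers `m ≥ n`. -/
noncomputable def lam (n : ℕ) : ℕ := sInf {d : ℕ | ∃ m : ℕ, n ≤ m ∧ lamTwo n m = d}

/-! ### Proof -/
lemma exists_cover {A B : Type*} [Fintype A] [DecidableEq A] [DecidableEq B] (n : ℕ)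
    (N : A → Finset B) (hcard : Fintype.card A = 2 * n)
    (hpair : ∀ e : Fin n × Fin 2 ≃ A, ∃ k : Fin n → B, Function.Injective k ∧
      ∀ s, k s ∈ N (e (s, 0)) ∧ k s ∈ N (e (s, 1)))
    (T : Finset B) (H : A → A → Prop) (hsymm : ∀ x y, H x y → H y x)
    (hirr : ∀ x, ¬ H x x) (hT : ∀ x y, H x y → N x ∩ N y ⊆ T) :
    ∃ U : Finset A, U.card ≤ 2 * T.card ∧ ∀ x ∉ U, ∀ y ∉ U, ¬ H x y := by
  classical
  have hne : Nonempty (Fin n × Fin 2 ≃ A) := by
    refine ⟨Fintype.equivOfCardEq ?_⟩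
    simp [hcard, mul_comm]
  let J : (Fin n × Fin 2 ≃ A) → Finset (Fin n) :=
    fun e => univ.filter fun s => H (e (s, 0)) (e (s, 1))
  obtain ⟨e, -, he⟩ := Finset.exists_max_image (univ : Finset (Fin n × Fin 2 ≃ A))
    (fun e => (J e).card) ⟨hne.some, mem_univ _⟩
  obtain ⟨k, hk, hk'⟩ := hpair e
  have hJT : (J e).card ≤ T.card := by
    rw [← Finset.card_image_of_injective (J e) hk]
    apply Finset.card_le_card
    intro b hb
    obtain ⟨s, hs, rfl⟩ := Finset.mem_image.1 hb
    have hs' : H (e (s, 0)) (e (s, 1)) := by simpa [J] using hs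
    exact hT _ _ hs' (Finset.mem_inter.2 (hk' s))
  refine ⟨((J e) ×ˢ (univ : Finset (Fin 2))).image e, ?_, ?_⟩
  · rw [Finset.card_image_of_injective _ e.injective, Finset.card_product]
    simp only [Finset.card_univ, Fintype.card_fin]
    omega
  · intro x hx y hy hxy
    obtain ⟨⟨s, i⟩, rfl⟩ := e.surjective x
    obtain ⟨⟨t, j⟩, rfl⟩ := e.surjective y
    have hs : s ∉ J e := fun h => hx (Finset.mem_image.2 ⟨(s, i), by simp [h], rfl⟩)
    have ht : t ∉ J e := fun h => hy (Finset.mem_image.2 ⟨(t, j), by simp [h], rfl⟩)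
    have hs' : ¬ H (e (s, 0)) (e (s, 1)) := by simpa [J] using hs
    have ht' : ¬ H (e (t, 0)) (e (t, 1)) := by simpa [J] using ht
    by_cases hst : s = t
    · subst hst
      fin_cases i <;> fin_cases j
      · exact hirr _ hxy
      · exact hs' hxy
      · exact hs' (hsymm _ _ hxy)
      · exact hirr _ hxy
    · -- swap
      let i' : Fin 2 := 1 - i
      let e' : Fin n × Fin 2 ≃ A := (Equiv.swap (s, i') (t, j)).trans e
      have hii : (s, i) ≠ (s, i') := by
        intro h
        have : i = 1 - i := (Prod.ext_iff.1 h).2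
        fin_cases i <;> simp at this
      have h1 : e' (s, i') = e (t, j) := by
        simp [e', Equiv.swap_apply_left]
      have h2 : e' (s, i) = e (s, i) := by
        have : Equiv.swap (s, i') (t, j) (s, i) = (s, i) :=
          Equiv.swap_apply_of_ne_of_ne hii (fun h => hst (Prod.ext_iff.1 h).1)
        simp [e', this]
      have h3 : ∀ u, u ≠ s → u ≠ t → ∀ l, e' (u, l) = e (u, l) := by
        intro u hus hut l
        have : Equiv.swap (s, i') (t, j) (u, l) = (u, l) :=
          Equiv.swap_apply_of_ne_of_ne (fun h => hus (Prod.ext_iff.1 h).1)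
            (fun h => hut (Prod.ext_iff.1 h).1)
        simp [e', this]
      have hsJ : s ∈ J e' := by
        simp only [J, mem_filter, mem_univ, true_and]
        fin_cases i
        · have h1' : e' (s, 1) = e (t, j) := h1
          have h2' : e' (s, 0) = e (s, 0) := h2
          rw [h1', h2']; exact hxy
        · have h1' : e' (s, 0) = e (t, j) := h1
          have h2' : e' (s, 1) = e (s, 1) := h2
          rw [h1', h2']; exact hsymm _ _ hxy
      have hsub : insert s (J e) ⊆ J e' := by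
        intro u hu
        rcases Finset.mem_insert.1 hu with rfl | hu
        · exact hsJ
        · have hus : u ≠ s := fun h => hs (h ▸ hu)
          have hut : u ≠ t := fun h => ht (h ▸ hu)
          have hu' : H (e (u, 0)) (e (u, 1)) := by simpa [J] using hu
          simp only [J, mem_filter, mem_univ, true_and]
          rw [h3 u hus hut, h3 u hus hut]
          exact hu'
      have := he e' (mem_univ _)
      have h5 := Finset.card_le_card hsub
      rw [Finset.card_insert_of_notMem hs] at h5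
      omega

section Prob
variable {B : Type*} [Fintype B] [DecidableEq B]

/-- product weight of a subset -/
noncomputable def wt (p : B → ℝ) (T : Finset B) : ℝ :=
  (∏ b ∈ T, p b) * ∏ b ∈ univ \ T, (1 - p b)

lemma wt_nonneg {p : B → ℝ} (h0 : ∀ b, 0 ≤ p b) (h1 : ∀ b, p b ≤ 1) (T : Finset B) :
    0 ≤ wt p T :=
  mul_nonneg (prod_nonneg fun b _ => h0 b) (prod_nonneg fun b _ => by linarith [h1 b])

lemma sum_wt_subset (p : B → ℝ) (S : Finset B) :
    ∑ T : Finset B, wt p T * (if S ⊆ T then 1 else 0) = ∏ b ∈ S, p b := by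
  classical
  have key : ∀ T : Finset B, wt p T * (if S ⊆ T then 1 else 0) =
      (∏ b ∈ T, p b) * ∏ b ∈ univ \ T, (if b ∈ S then 0 else 1 - p b) := by
    intro T
    by_cases h : S ⊆ T
    · rw [if_pos h, mul_one, wt]
      congr 1
      apply Finset.prod_congr rfl
      intro b hb
      have : b ∉ S := fun hbS => (Finset.mem_sdiff.1 hb).2 (h hbS)
      simp [this]
    · rw [if_neg h, mul_zero]
      obtain ⟨b, hbS, hbT⟩ := Finset.not_subset.1 h
      symm
      apply mul_eq_zero_of_right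
      apply Finset.prod_eq_zero (i := b)
      · simp [hbT]
      · simp [hbS]
  rw [Finset.sum_congr rfl fun T _ => key T]
  have := Finset.prod_add p (fun b => if b ∈ S then 0 else 1 - p b) (univ : Finset B)
  rw [Finset.powerset_univ] at this
  rw [← this]
  have h2 : ∀ b, p b + (if b ∈ S then 0 else 1 - p b) = if b ∈ S then p b else 1 := by
    intro b; split_ifs <;> ring
  rw [Finset.prod_congr rfl fun b _ => h2 b, Finset.prod_ite]
  simp

lemma sum_wt (p : B → ℝ) : ∑ T : Finset B, wt p T = 1 := by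
  have := sum_wt_subset p ∅
  simpa using this

lemma sum_wt_card (p : B → ℝ) : ∑ T : Finset B, wt p T * (T.card : ℝ) = ∑ b, p b := by
  have h : ∀ T : Finset B, (T.card : ℝ) = ∑ b : B, (if ({b} : Finset B) ⊆ T then (1:ℝ) else 0) := by
    intro T
    simp
  calc ∑ T : Finset B, wt p T * (T.card : ℝ)
      = ∑ T : Finset B, ∑ b : B, wt p T * (if ({b} : Finset B) ⊆ T then (1:ℝ) else 0) := by
        apply Finset.sum_congr rfl; intro T _; rw [h T, Finset.mul_sum]
    _ = ∑ b : B, ∑ T : Finset B, wt p T * (if ({b} : Finset B) ⊆ T then (1:ℝ) else 0) :=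
        Finset.sum_comm
    _ = ∑ b, p b := by
        apply Finset.sum_congr rfl; intro b _; rw [sum_wt_subset]; simp

/-- averaging -/
lemma exists_lt_one {p : B → ℝ} (h0 : ∀ b, 0 ≤ p b) (h1 : ∀ b, p b ≤ 1) (Z : Finset B → ℝ)
    (hZ : ∑ T : Finset B, wt p T * Z T < 1) : ∃ T : Finset B, Z T < 1 := by
  by_contra hcon
  push Not at hcon
  have : ∑ T : Finset B, wt p T * 1 ≤ ∑ T : Finset B, wt p T * Z T :=
    Finset.sum_le_sum fun T _ => mul_le_mul_of_nonneg_left (hcon T) (wt_nonneg h0 h1 T)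
  rw [← Finset.sum_mul, sum_wt] at this
  linarith


lemma sum_wt_two (p : B → ℝ) (S S' : Finset B) :
    ∑ T : Finset B, wt p T * ((if S ⊆ T then 1 else 0) * (if S' ⊆ T then 1 else 0)) =
      ∏ b ∈ S ∪ S', p b := by
  rw [← sum_wt_subset]
  apply Finset.sum_congr rfl
  intro T _
  congr 1
  by_cases h1 : S ⊆ T <;> by_cases h2 : S' ⊆ T <;> simp [h1, h2, Finset.union_subset_iff]

/-- second moment identity -/
lemma second_moment {A : Type*} [DecidableEq A] (p : B → ℝ) (F : Finset A) (S : A → Finset B)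
    (hpos : ∀ y ∈ F, ∀ b ∈ S y, 0 < p b) :
    ∑ T : Finset B, wt p T *
      ((∑ y ∈ F, (∏ b ∈ S y, p b)⁻¹ * (if S y ⊆ T then 1 else 0)) - (F.card : ℝ)) ^ 2
      = ∑ y ∈ F, ∑ z ∈ F, ((∏ b ∈ S y ∩ S z, p b)⁻¹ - 1) := by
  have hP : ∀ y ∈ F, 0 < ∏ b ∈ S y, p b := fun y hy => prod_pos (hpos y hy)
  have h1 : ∑ T : Finset B, wt p T *
      (∑ y ∈ F, (∏ b ∈ S y, p b)⁻¹ * (if S y ⊆ T then 1 else 0)) = F.card := by
    calc _ = ∑ T : Finset B, ∑ y ∈ F, (∏ b ∈ S y, p b)⁻¹ * (wt p T * (if S y ⊆ T then 1 else 0)) := by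
          apply Finset.sum_congr rfl; intro T _
          rw [Finset.mul_sum]; apply Finset.sum_congr rfl; intro y _; ring
      _ = ∑ y ∈ F, ∑ T : Finset B, (∏ b ∈ S y, p b)⁻¹ * (wt p T * (if S y ⊆ T then 1 else 0)) :=
          Finset.sum_comm
      _ = ∑ y ∈ F, 1 := by
          apply Finset.sum_congr rfl; intro y hy
          rw [← Finset.mul_sum, sum_wt_subset, inv_mul_cancel₀ (hP y hy).ne']
      _ = F.card := by simp
  have h2 : ∑ T : Finset B, wt p T *
      (∑ y ∈ F, (∏ b ∈ S y, p b)⁻¹ * (if S y ⊆ T then 1 else 0)) ^ 2 =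
      ∑ y ∈ F, ∑ z ∈ F, (∏ b ∈ S y ∩ S z, p b)⁻¹ := by
    calc _ = ∑ T : Finset B, ∑ y ∈ F, ∑ z ∈ F, ((∏ b ∈ S y, p b)⁻¹ * (∏ b ∈ S z, p b)⁻¹) *
            (wt p T * ((if S y ⊆ T then 1 else 0) * (if S z ⊆ T then 1 else 0))) := by
          apply Finset.sum_congr rfl; intro T _
          rw [sq, Finset.sum_mul_sum, Finset.mul_sum]
          apply Finset.sum_congr rfl; intro y _
          rw [Finset.mul_sum]
          apply Finset.sum_congr rfl; intro z _; ring
      _ = ∑ y ∈ F, ∑ z ∈ F, ∑ T : Finset B, ((∏ b ∈ S y, p b)⁻¹ * (∏ b ∈ S z, p b)⁻¹) *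
            (wt p T * ((if S y ⊆ T then 1 else 0) * (if S z ⊆ T then 1 else 0))) := by
          rw [Finset.sum_comm]
          apply Finset.sum_congr rfl; intro y _
          rw [Finset.sum_comm]
      _ = _ := by
          apply Finset.sum_congr rfl; intro y hy
          apply Finset.sum_congr rfl; intro z hz
          rw [← Finset.mul_sum, sum_wt_two]
          have h3 := Finset.prod_union_inter (s₁ := S y) (s₂ := S z) (f := p)
          have hi : 0 < ∏ b ∈ S y ∩ S z, p b :=
            prod_pos fun b hb => hpos y hy b (Finset.mem_inter.1 hb).1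
          have hy' := hP y hy
          have hz' := hP z hz
          rw [← mul_inv, ← h3, mul_inv]
          have hu : 0 < ∏ b ∈ S y ∪ S z, p b := prod_pos fun b hb => by
            rcases Finset.mem_union.1 hb with h | h
            · exact hpos y hy b h
            · exact hpos z hz b h
          field_simp
  have h3 : ∀ T : Finset B, wt p T *
      ((∑ y ∈ F, (∏ b ∈ S y, p b)⁻¹ * (if S y ⊆ T then 1 else 0)) - (F.card : ℝ)) ^ 2 =
      wt p T * (∑ y ∈ F, (∏ b ∈ S y, p b)⁻¹ * (if S y ⊆ T then 1 else 0)) ^ 2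
      - 2 * F.card * (wt p T * (∑ y ∈ F, (∏ b ∈ S y, p b)⁻¹ * (if S y ⊆ T then 1 else 0)))
      + (F.card : ℝ) ^ 2 * wt p T := by intro T; ring
  rw [Finset.sum_congr rfl fun T _ => h3 T, Finset.sum_add_distrib, Finset.sum_sub_distrib,
    ← Finset.mul_sum, ← Finset.mul_sum, h1, h2, sum_wt]
  simp only [Finset.sum_sub_distrib, Finset.sum_const, nsmul_eq_mul, mul_one]
  ring

end Prob

section Graph
variable {A B : Type*} [Fintype A] [DecidableEq A] [Fintype B] [DecidableEq B]

/-- number of neighbours in `A` of a vertex `b` -/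
def kd (N : A → Finset B) (b : B) : ℕ := (univ.filter fun a => b ∈ N a).card

noncomputable def pr (N : A → Finset B) (c D : ℝ) (b : B) : ℝ := min 1 (c * kd N b / (2 * D))

lemma pr_le_one (N : A → Finset B) (c D : ℝ) (b : B) : pr N c D b ≤ 1 := min_le_left _ _

lemma pr_nonneg (N : A → Finset B) {c D : ℝ} (hc : 0 < c) (hD : 0 < D) (b : B) :
    0 ≤ pr N c D b := le_min zero_le_one (by positivity)

lemma kd_pos (N : A → Finset B) {a : A} {b : B} (h : b ∈ N a) : 0 < kd N b :=
  Finset.card_pos.2 ⟨a, by simp [h]⟩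

lemma pr_pos (N : A → Finset B) {c D : ℝ} (hc : 0 < c) (hD : 0 < D) {a : A} {b : B}
    (h : b ∈ N a) : 0 < pr N c D b := by
  have : (0 : ℝ) < kd N b := by exact_mod_cast kd_pos N h
  exact lt_min zero_lt_one (by positivity)

lemma sum_kd (N : A → Finset B) : ∑ b, kd N b = ∑ a, (N a).card := by
  classical
  simp only [kd, Finset.card_filter]
  rw [Finset.sum_comm]
  apply Finset.sum_congr rfl
  intro a _
  simp

lemma sum_pr_le (N : A → Finset B) {c D : ℝ} (hc : 0 < c) (hD : 0 < D)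
    (hdeg : ∀ a, ((N a).card : ℝ) ≤ D) :
    ∑ b, pr N c D b ≤ c * Fintype.card A / 2 := by
  calc ∑ b, pr N c D b ≤ ∑ b, c * kd N b / (2 * D) := Finset.sum_le_sum fun b _ => min_le_right _ _
    _ = c / (2 * D) * ((∑ b, kd N b : ℕ) : ℝ) := by
        push_cast; rw [Finset.mul_sum]; apply Finset.sum_congr rfl; intro b _; ring
    _ = c / (2 * D) * ∑ a, ((N a).card : ℝ) := by rw [sum_kd]; push_cast; rfl
    _ ≤ c / (2 * D) * ∑ a : A, D := by
        apply mul_le_mul_of_nonneg_left (Finset.sum_le_sum fun a _ => hdeg a) (by positivity)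
    _ = c * Fintype.card A / 2 := by
        simp; field_simp

lemma kd_lt_of_pr_lt (N : A → Finset B) {c D : ℝ} (hc : 0 < c) (hD : 0 < D) {b : B}
    (h : pr N c D b < 1) : (kd N b : ℝ) < 2 * D / c := by
  have h1 : c * kd N b / (2 * D) < 1 := by
    by_contra hcon
    push Not at hcon
    rw [pr, min_eq_left hcon] at h
    exact lt_irrefl _ h
  rw [div_lt_one (by positivity)] at h1
  rw [lt_div_iff₀ hc]; linarith

lemma kd_mul_log_le (N : A → Finset B) {c D : ℝ} (hc : 0 < c) (hD : 0 < D) {a : A} {b : B}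
    (hb : b ∈ N a) : (kd N b : ℝ) * (-Real.log (pr N c D b)) ≤ 2 * D / (c * Real.exp 1) := by
  by_cases h : pr N c D b < 1
  · have h1 : c * kd N b / (2 * D) < 1 := by
      by_contra hcon
      push Not at hcon
      rw [pr, min_eq_left hcon] at h
      exact lt_irrefl _ h
    have h2 : pr N c D b = c * kd N b / (2 * D) := min_eq_right h1.le
    set q := pr N c D b with hq
    have hqpos : 0 < q := pr_pos N hc hD hb
    have hk : (kd N b : ℝ) = 2 * D / c * q := by rw [h2]; field_simp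
    -- q * (-log q) ≤ 1/e
    have h3 : q * (-Real.log q) ≤ 1 / Real.exp 1 := by
      have h4 : Real.log (1 / (q * Real.exp 1)) ≤ 1 / (q * Real.exp 1) - 1 :=
        Real.log_le_sub_one_of_pos (by positivity)
      rw [one_div, Real.log_inv, Real.log_mul hqpos.ne' (Real.exp_pos 1).ne', Real.log_exp] at h4
      have h5 : -Real.log q ≤ (q * Real.exp 1)⁻¹ := by linarith
      calc q * (-Real.log q) ≤ q * (q * Real.exp 1)⁻¹ := mul_le_mul_of_nonneg_left h5 hqpos.le
        _ = 1 / Real.exp 1 := by field_simp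
    calc (kd N b : ℝ) * (-Real.log q) = 2 * D / c * (q * (-Real.log q)) := by rw [hk]; ring
      _ ≤ 2 * D / c * (1 / Real.exp 1) := mul_le_mul_of_nonneg_left h3 (by positivity)
      _ = 2 * D / (c * Real.exp 1) := by field_simp
  · have : pr N c D b = 1 := le_antisymm (pr_le_one _ _ _ _) (not_lt.1 h)
    rw [this]; simp; positivity

/-- the product of the inclusion probabilities over common neighbours -/
noncomputable def PP (N : A → Finset B) (c D : ℝ) (x y : A) : ℝ := ∏ b ∈ N x ∩ N y, pr N c D b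

lemma PP_symm (N : A → Finset B) (c D : ℝ) (x y : A) : PP N c D x y = PP N c D y x := by
  rw [PP, PP, Finset.inter_comm]

lemma PP_pos (N : A → Finset B) {c D : ℝ} (hc : 0 < c) (hD : 0 < D) (x y : A) :
    0 < PP N c D x y :=
  prod_pos fun _ hb => pr_pos N hc hD (Finset.mem_inter.1 hb).1

lemma PP_le_one (N : A → Finset B) {c D : ℝ} (hc : 0 < c) (hD : 0 < D) (x y : A) :
    PP N c D x y ≤ 1 :=
  prod_le_one (fun b _ => pr_nonneg N hc hD b) fun b _ => pr_le_one N c D b

/-- total logarithmic weight at a vertex -/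
lemma sum_log_le (N : A → Finset B) {c D : ℝ} (hc : 0 < c) (hD : 0 < D)
    (hdeg : ∀ a, ((N a).card : ℝ) ≤ D) (x : A) :
    ∑ y, -Real.log (PP N c D x y) ≤ 2 * D ^ 2 / (c * Real.exp 1) := by
  have h1 : ∀ y, -Real.log (PP N c D x y) =
      ∑ b ∈ N x, if b ∈ N y then -Real.log (pr N c D b) else 0 := by
    intro y
    rw [PP, Real.log_prod (fun b hb => (pr_pos N hc hD (Finset.mem_inter.1 hb).1).ne'),
      ← Finset.sum_neg_distrib, ← Finset.sum_filter, Finset.filter_mem_eq_inter]
  rw [Finset.sum_congr rfl fun y _ => h1 y, Finset.sum_comm]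
  have h2 : ∀ b ∈ N x, ∑ y, (if b ∈ N y then -Real.log (pr N c D b) else 0) ≤
      2 * D / (c * Real.exp 1) := by
    intro b hb
    rw [← Finset.sum_filter, Finset.sum_const, nsmul_eq_mul]
    exact kd_mul_log_le N hc hD hb
  calc _ ≤ ∑ b ∈ N x, 2 * D / (c * Real.exp 1) := Finset.sum_le_sum h2
    _ = (N x).card * (2 * D / (c * Real.exp 1)) := by rw [Finset.sum_const, nsmul_eq_mul]
    _ ≤ D * (2 * D / (c * Real.exp 1)) := mul_le_mul_of_nonneg_right (hdeg x) (by positivity)
    _ = _ := by ring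

/-- few pairs are heavy -/
lemma heavy_card (N : A → Finset B) {c D L : ℝ} (hc : 0 < c) (hD : 0 < D) (hL : 1 < L)
    (hdeg : ∀ a, ((N a).card : ℝ) ≤ D) (x : A) :
    ((univ.filter fun y => ¬ L⁻¹ ≤ PP N c D x y).card : ℝ) * Real.log L
      ≤ 2 * D ^ 2 / (c * Real.exp 1) := by
  refine le_trans ?_ (sum_log_le N hc hD hdeg x)
  have hLpos : 0 < L := by linarith
  calc ((univ.filter fun y => ¬ L⁻¹ ≤ PP N c D x y).card : ℝ) * Real.log L
      = ∑ y ∈ univ.filter fun y => ¬ L⁻¹ ≤ PP N c D x y, Real.log L := by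
        rw [Finset.sum_const, nsmul_eq_mul]
    _ ≤ ∑ y ∈ univ.filter fun y => ¬ L⁻¹ ≤ PP N c D x y, -Real.log (PP N c D x y) := by
        apply Finset.sum_le_sum
        intro y hy
        have hy' : PP N c D x y < L⁻¹ := by simpa using (Finset.mem_filter.1 hy).2
        have := Real.log_lt_log (PP_pos N hc hD x y) hy'
        rw [Real.log_inv] at this
        linarith
    _ ≤ ∑ y, -Real.log (PP N c D x y) := by
        apply Finset.sum_le_sum_of_subset_of_nonneg (Finset.filter_subset _ _)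
        intro y _ _
        have := Real.log_nonpos (PP_pos N hc hD x y).le (PP_le_one N hc hD x y)
        linarith

/-- light partners of a vertex -/
noncomputable def FF (N : A → Finset B) (c D L : ℝ) (x : A) : Finset A :=
  univ.filter fun y => y ≠ x ∧ L⁻¹ ≤ PP N c D x y

/-- variance bound -/
lemma variance_le (N : A → Finset B) {c D L : ℝ} (hc : 0 < c) (hD : 0 < D) (hL : 1 < L)
    (hdeg : ∀ a, ((N a).card : ℝ) ≤ D) (x : A) :
    ∑ T : Finset B, wt (pr N c D) T *
      ((∑ y ∈ FF N c D L x, (PP N c D x y)⁻¹ * (if N x ∩ N y ⊆ T then 1 else 0))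
        - ((FF N c D L x).card : ℝ)) ^ 2
      ≤ L * D * (2 * D / c) ^ 2 := by
  have hLpos : 0 < L := by linarith
  have h0 := second_moment (pr N c D) (FF N c D L x) (fun y => N x ∩ N y)
    (fun y _ b hb => pr_pos N hc hD (Finset.mem_inter.1 hb).1)
  unfold PP at *
  rw [h0]
  -- each term is bounded by L times the number of b with pr < 1
  have h1 : ∀ y ∈ FF N c D L x, ∀ z ∈ FF N c D L x,
      (∏ b ∈ (N x ∩ N y) ∩ (N x ∩ N z), pr N c D b)⁻¹ - 1 ≤
        ∑ b ∈ (N x).filter (fun b => pr N c D b < 1),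
          (if b ∈ N y then 1 else 0) * (if b ∈ N z then 1 else 0) * L := by
    intro y hy z _
    have hRnonneg : ∀ b ∈ (N x).filter (fun b => pr N c D b < 1),
        (0:ℝ) ≤ (if b ∈ N y then 1 else 0) * (if b ∈ N z then 1 else 0) * L := by
      intro b _
      split_ifs <;> simp [hLpos.le]
    by_cases hex : ∃ b ∈ (N x ∩ N y) ∩ (N x ∩ N z), pr N c D b < 1
    · obtain ⟨b, hb, hb1⟩ := hex
      have hbx : b ∈ N x := (Finset.mem_inter.1 (Finset.mem_inter.1 hb).1).1
      have hby : b ∈ N y := (Finset.mem_inter.1 (Finset.mem_inter.1 hb).1).2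
      have hbz : b ∈ N z := (Finset.mem_inter.1 (Finset.mem_inter.1 hb).2).2
      have h2 : L ≤ ∑ b ∈ (N x).filter (fun b => pr N c D b < 1),
          (if b ∈ N y then 1 else 0) * (if b ∈ N z then 1 else 0) * L := by
        have := Finset.single_le_sum hRnonneg (Finset.mem_filter.2 ⟨hbx, hb1⟩)
        simpa [hby, hbz] using this
      refine le_trans ?_ h2
      have h3 : L⁻¹ ≤ PP N c D x y := (Finset.mem_filter.1 hy).2.2
      have h4 : PP N c D x y ≤ ∏ b ∈ (N x ∩ N y) ∩ (N x ∩ N z), pr N c D b := by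
        unfold PP
        exact Finset.prod_le_prod_of_subset_of_le_one Finset.inter_subset_left
          (fun b _ => pr_nonneg N hc hD b) (fun b _ _ => pr_le_one N c D b)
      have h5 : 0 < ∏ b ∈ (N x ∩ N y) ∩ (N x ∩ N z), pr N c D b :=
        lt_of_lt_of_le (PP_pos N hc hD x y) h4
      have h6 : (∏ b ∈ (N x ∩ N y) ∩ (N x ∩ N z), pr N c D b)⁻¹ ≤ L := by
        rw [inv_le_comm₀ h5 hLpos]; exact h3.trans h4
      linarith
    · push Not at hex
      have h2 : ∏ b ∈ (N x ∩ N y) ∩ (N x ∩ N z), pr N c D b = 1 := by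
        apply Finset.prod_eq_one
        intro b hb
        exact le_antisymm (pr_le_one _ _ _ _) (hex b hb)
      rw [h2]; simp only [inv_one, sub_self]
      exact Finset.sum_nonneg hRnonneg
  set Fx := FF N c D L x with hFx
  calc ∑ y ∈ Fx, ∑ z ∈ Fx, ((∏ b ∈ (N x ∩ N y) ∩ (N x ∩ N z), pr N c D b)⁻¹ - 1)
      ≤ ∑ y ∈ Fx, ∑ z ∈ Fx, ∑ b ∈ (N x).filter (fun b => pr N c D b < 1),
          (if b ∈ N y then 1 else 0) * (if b ∈ N z then 1 else 0) * L :=
        Finset.sum_le_sum fun y hy => Finset.sum_le_sum fun z hz => h1 y hy z hz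
    _ = ∑ b ∈ (N x).filter (fun b => pr N c D b < 1), ∑ y ∈ Fx, ∑ z ∈ Fx,
          (if b ∈ N y then 1 else 0) * (if b ∈ N z then 1 else 0) * L := by
        rw [Finset.sum_congr rfl fun y _ => Finset.sum_comm, Finset.sum_comm]
    _ = ∑ b ∈ (N x).filter (fun b => pr N c D b < 1),
          (∑ y ∈ Fx, (if b ∈ N y then (1:ℝ) else 0)) ^ 2 * L := by
        apply Finset.sum_congr rfl; intro b _
        rw [sq, Finset.sum_mul_sum, Finset.sum_mul]
        apply Finset.sum_congr rfl; intro y _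
        rw [Finset.sum_mul]
    _ ≤ ∑ b ∈ (N x).filter (fun b => pr N c D b < 1), (2 * D / c) ^ 2 * L := by
        apply Finset.sum_le_sum; intro b hb
        apply mul_le_mul_of_nonneg_right _ hLpos.le
        apply pow_le_pow_left₀ (Finset.sum_nonneg fun y _ => by split_ifs <;> norm_num)
        refine le_trans ?_ (kd_lt_of_pr_lt N hc hD (Finset.mem_filter.1 hb).2).le
        rw [← Finset.sum_filter, Finset.sum_const, nsmul_eq_mul, mul_one, kd]
        exact_mod_cast Finset.card_le_card (Finset.filter_subset_filter _ (Finset.subset_univ _))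
    _ = (((N x).filter (fun b => pr N c D b < 1)).card : ℝ) * ((2 * D / c) ^ 2 * L) := by
        rw [Finset.sum_const, nsmul_eq_mul]
    _ ≤ D * ((2 * D / c) ^ 2 * L) := by
        apply mul_le_mul_of_nonneg_right _ (by positivity)
        refine le_trans ?_ (hdeg x)
        exact_mod_cast Finset.card_le_card (Finset.filter_subset _ _)
    _ = L * D * (2 * D / c) ^ 2 := by ring

end Graph

section Core
variable {A B : Type*} [Fintype A] [DecidableEq A] [Fintype B] [DecidableEq B]

lemma core (n : ℕ) (hn : 0 < n) (N : A → Finset B) (hcard : Fintype.card A = 2 * n)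
    (hpair : ∀ e : Fin n × Fin 2 ≃ A, ∃ k : Fin n → B, Function.Injective k ∧
      ∀ s, k s ∈ N (e (s, 0)) ∧ k s ∈ N (e (s, 1)))
    {c D L h τ V : ℝ} (hc : 0 < c) (hD : 0 < D) (hL : 1 < L) (hτ : 0 < τ) (hV : 0 < V)
    (hdeg : ∀ a, ((N a).card : ℝ) ≤ D)
    (hh : 2 * D ^ 2 / (c * Real.exp 1) ≤ h * Real.log L) (hh2 : h ≤ 2 * n - 1)
    (hsum : c / τ + 2 * n * (L * D * (2 * D / c) ^ 2) / V < 1) :
    ∃ R : ℝ, 0 ≤ R ∧ R ^ 2 ≤ 2 * n * V ∧
      (2 * n - 2 * τ * n) * (2 * n - 1 - h) ≤ 2 * n * (2 * τ * n) + R := by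
  classical
  have hn' : (0 : ℝ) < n := by exact_mod_cast hn
  have hLpos : 0 < L := by linarith
  have hcardR : (Fintype.card A : ℝ) = 2 * n := by rw [hcard]; push_cast; ring
  set W : Finset B → A → ℝ := fun T x =>
    ∑ y ∈ FF N c D L x, (PP N c D x y)⁻¹ * (if N x ∩ N y ⊆ T then 1 else 0) with hW
  set p := pr N c D with hp
  have hp0 : ∀ b, 0 ≤ p b := pr_nonneg N hc hD
  have hp1 : ∀ b, p b ≤ 1 := pr_le_one N c D
  -- the averaging step
  obtain ⟨T, hT⟩ : ∃ T : Finset B, (T.card : ℝ) / (τ * n) +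
      (∑ x, (W T x - ((FF N c D L x).card : ℝ)) ^ 2) / V < 1 := by
    apply exists_lt_one hp0 hp1
    have e1 : ∑ T : Finset B, wt p T * ((T.card : ℝ) / (τ * n) +
        (∑ x, (W T x - ((FF N c D L x).card : ℝ)) ^ 2) / V) =
        (∑ T : Finset B, wt p T * (T.card : ℝ)) / (τ * n) +
        (∑ x, ∑ T : Finset B, wt p T * (W T x - ((FF N c D L x).card : ℝ)) ^ 2) / V := by
      rw [Finset.sum_comm, Finset.sum_div, Finset.sum_div, ← Finset.sum_add_distrib]
      apply Finset.sum_congr rfl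
      intro T _
      rw [← Finset.mul_sum]; ring
    rw [e1, sum_wt_card]
    have e2 : (∑ b, p b) / (τ * n) ≤ c / τ := by
      have := sum_pr_le N hc hD hdeg
      rw [hcardR] at this
      rw [div_le_div_iff₀ (by positivity) hτ]
      nlinarith [this, hτ]
    have e3 : (∑ x, ∑ T : Finset B, wt p T * (W T x - ((FF N c D L x).card : ℝ)) ^ 2) / V
        ≤ 2 * n * (L * D * (2 * D / c) ^ 2) / V := by
      apply div_le_div_of_nonneg_right _ hV.le
      calc _ ≤ ∑ x : A, L * D * (2 * D / c) ^ 2 :=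
            Finset.sum_le_sum fun x _ => variance_le N hc hD hL hdeg x
        _ = _ := by rw [Finset.sum_const, nsmul_eq_mul, Finset.card_univ, hcardR]
    linarith
  have hTcard : (T.card : ℝ) < τ * n := by
    have h2 : 0 ≤ (∑ x, (W T x - ((FF N c D L x).card : ℝ)) ^ 2) / V :=
      div_nonneg (Finset.sum_nonneg fun x _ => sq_nonneg _) hV.le
    have h3 : (T.card : ℝ) / (τ * n) < 1 := by linarith
    rwa [div_lt_one (by positivity)] at h3
  have hδ : ∑ x, (W T x - ((FF N c D L x).card : ℝ)) ^ 2 < V := by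
    have h2 : 0 ≤ (T.card : ℝ) / (τ * n) := by positivity
    have h3 : (∑ x, (W T x - ((FF N c D L x).card : ℝ)) ^ 2) / V < 1 := by linarith
    rwa [div_lt_one hV] at h3
  -- the vertex cover
  obtain ⟨U, hU1, hU2⟩ := exists_cover n N hcard hpair T
    (fun x y => y ∈ FF N c D L x ∧ N x ∩ N y ⊆ T)
    (by
      rintro x y ⟨h1, h2⟩
      simp only [FF, mem_filter, mem_univ, true_and] at h1 ⊢
      refine ⟨⟨h1.1.symm, ?_⟩, ?_⟩
      · rw [PP_symm]; exact h1.2
      · rw [Finset.inter_comm]; exact h2)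
    (by
      rintro x ⟨h1, -⟩
      simp [FF] at h1)
    (fun x y h => h.2)
  -- weights
  let w : A → A → ℝ := fun x y =>
    if y ∈ FF N c D L x ∧ N x ∩ N y ⊆ T then (PP N c D x y)⁻¹ else 0
  have hw0 : ∀ x y, 0 ≤ w x y := by
    intro x y; simp only [w]; split_ifs
    · exact inv_nonneg.2 (PP_pos N hc hD x y).le
    · exact le_rfl
  have hwsymm : ∀ x y, w x y = w y x := by
    intro x y
    have : (y ∈ FF N c D L x ∧ N x ∩ N y ⊆ T) ↔ (x ∈ FF N c D L y ∧ N y ∩ N x ⊆ T) := by
      simp only [FF, mem_filter, mem_univ, true_and, PP_symm N c D x y, Finset.inter_comm (N x)]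
      tauto
    simp only [w, this, PP_symm N c D x y]
  have hWw : ∀ x, W T x = ∑ y, w x y := by
    intro x
    simp only [hW, w]
    rw [← Finset.sum_filter_add_sum_filter_not univ (fun y => y ∈ FF N c D L x)
      (fun y => if y ∈ FF N c D L x ∧ N x ∩ N y ⊆ T then (PP N c D x y)⁻¹ else 0)]
    have z : ∑ y ∈ univ.filter (fun y => y ∉ FF N c D L x),
        (if y ∈ FF N c D L x ∧ N x ∩ N y ⊆ T then (PP N c D x y)⁻¹ else 0) = 0 := by
      apply Finset.sum_eq_zero
      intro y hy
      rw [if_neg]; rintro ⟨h1, -⟩; exact (Finset.mem_filter.1 hy).2 h1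
    rw [z, add_zero, Finset.filter_mem_eq_inter, Finset.univ_inter]
    apply Finset.sum_congr rfl
    intro y hy
    simp only [hy, true_and]
    split_ifs <;> simp
  have hflow : ∑ x ∈ Uᶜ, W T x ≤ ∑ x ∈ U, W T x := by
    calc ∑ x ∈ Uᶜ, W T x = ∑ x ∈ Uᶜ, ∑ y ∈ U, w x y := by
          apply Finset.sum_congr rfl
          intro x hx
          rw [hWw, ← Finset.sum_add_sum_compl U]
          have : ∑ y ∈ Uᶜ, w x y = 0 := by
            apply Finset.sum_eq_zero
            intro y hy
            simp only [w]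
            rw [if_neg]
            exact hU2 x (Finset.mem_compl.1 hx) y (Finset.mem_compl.1 hy)
          rw [this, add_zero]
      _ = ∑ y ∈ U, ∑ x ∈ Uᶜ, w y x := by
          rw [Finset.sum_comm]
          apply Finset.sum_congr rfl; intro y _
          apply Finset.sum_congr rfl; intro x _
          exact hwsymm x y
      _ ≤ ∑ y ∈ U, W T y := by
          apply Finset.sum_le_sum; intro y _
          rw [hWw]
          exact Finset.sum_le_sum_of_subset_of_nonneg (Finset.subset_univ _) fun z _ _ => hw0 y z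
  -- sizes of the light neighbourhoods
  have hFle : ∀ x, ((FF N c D L x).card : ℝ) ≤ 2 * n := by
    intro x
    rw [← hcardR]
    exact_mod_cast Finset.card_le_univ _
  have hFge : ∀ x, 2 * (n:ℝ) - 1 - h ≤ ((FF N c D L x).card : ℝ) := by
    intro x
    have h1 := heavy_card N hc hD hL hdeg x
    have hlog : 0 < Real.log L := Real.log_pos hL
    have h2 : ((univ.filter fun y => ¬ L⁻¹ ≤ PP N c D x y).card : ℝ) ≤ h := by
      have := h1.trans hh
      exact le_of_mul_le_mul_right this hlog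
    have h3 : (univ : Finset A) ⊆ (FF N c D L x) ∪ ({x} ∪ univ.filter fun y => ¬ L⁻¹ ≤ PP N c D x y) := by
      intro y _
      simp only [FF, mem_union, mem_filter, mem_univ, true_and, mem_singleton]
      tauto
    have h4 := Finset.card_le_card h3
    have h5 := (h4.trans (Finset.card_union_le _ _)).trans
      (Nat.add_le_add_left (Finset.card_union_le _ _) _)
    rw [Finset.card_univ, Finset.card_singleton] at h5
    have h6 : (Fintype.card A : ℝ) ≤ (FF N c D L x).card +
      (1 + (univ.filter fun y => ¬ L⁻¹ ≤ PP N c D x y).card) := by exact_mod_cast h5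
    rw [hcardR] at h6
    linarith
  -- conclusion
  refine ⟨∑ x, |W T x - ((FF N c D L x).card : ℝ)|, Finset.sum_nonneg fun _ _ => abs_nonneg _, ?_, ?_⟩
  · have h1 := sq_sum_le_card_mul_sum_sq (s := (univ : Finset A))
      (f := fun x => |W T x - ((FF N c D L x).card : ℝ)|)
    rw [Finset.card_univ, hcardR] at h1
    refine h1.trans ?_
    apply mul_le_mul_of_nonneg_left _ (by positivity)
    simp only [sq_abs]
    exact hδ.le
  · have hUcard : (U.card : ℝ) ≤ 2 * τ * n := by
      have : (U.card : ℝ) ≤ 2 * T.card := by exact_mod_cast hU1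
      nlinarith
    have hUc : (2 * (n:ℝ) - 2 * τ * n) ≤ (Uᶜ.card : ℝ) := by
      rw [Finset.card_compl, Nat.cast_sub (Finset.card_le_univ _), hcardR]
      linarith
    have hb1 : ∑ x ∈ Uᶜ, (2 * (n:ℝ) - 1 - h) ≤ ∑ x ∈ Uᶜ, (W T x + |W T x - ((FF N c D L x).card : ℝ)|) := by
      apply Finset.sum_le_sum; intro x _
      have := neg_abs_le (W T x - ((FF N c D L x).card : ℝ))
      linarith [hFge x]
    have hb2 : ∑ x ∈ U, W T x ≤ ∑ x ∈ U, (2 * (n:ℝ) + |W T x - ((FF N c D L x).card : ℝ)|) := by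
      apply Finset.sum_le_sum; intro x _
      have := le_abs_self (W T x - ((FF N c D L x).card : ℝ))
      linarith [hFle x]
    rw [Finset.sum_add_distrib] at hb1 hb2
    rw [Finset.sum_const, nsmul_eq_mul] at hb1 hb2
    have hb3 := Finset.sum_add_sum_compl U (fun x => |W T x - ((FF N c D L x).card : ℝ)|)
    have hb4 : (2 * (n:ℝ) - 2 * τ * n) * (2 * (n:ℝ) - 1 - h) ≤ (Uᶜ.card : ℝ) * (2 * (n:ℝ) - 1 - h) :=
      mul_le_mul_of_nonneg_right hUc (by linarith)
    have hb5 : (U.card : ℝ) * (2 * (n:ℝ)) ≤ 2 * n * (2 * τ * n) := by nlinarith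
    linarith

end Core

section LowerAsymp
open Filter

lemma lower_asymp : ∀ᶠ n : ℕ in atTop, ∀ (m : ℕ) (N : Fin (2 * n) → Finset (Fin m)),
    (∀ e : Fin n × Fin 2 ≃ Fin (2 * n), ∃ k : Fin n → Fin m, Function.Injective k ∧
      ∀ s, k s ∈ N (e (s, 0)) ∧ k s ∈ N (e (s, 1))) →
    ∃ a, (2 / 5 : ℝ) * Real.sqrt (n * Real.log n) < (N a).card := by
  have ev1 : ∀ᶠ x : ℝ in atTop, Real.log x ≤ x ^ (1 / 50 : ℝ) := by
    have h := isLittleO_log_rpow_atTop (r := 1 / 50) (by norm_num)
    have h2 := h.bound (c := 1) one_pos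
    filter_upwards [h2, eventually_ge_atTop (1:ℝ)] with x hx hx1
    rw [Real.norm_of_nonneg (Real.log_nonneg hx1), Real.norm_of_nonneg (by positivity)] at hx
    linarith
  have ev2 : ∀ᶠ x : ℝ in atTop, 22756 < x ^ (1 / 50 : ℝ) :=
    (tendsto_rpow_atTop (by norm_num)).eventually (eventually_gt_atTop 22756)
  have ev := tendsto_natCast_atTop_atTop (R := ℝ) |>.eventually (ev1.and ev2)
  filter_upwards [ev, eventually_ge_atTop 40] with n hn hn40 m N hpair
  obtain ⟨h1, h2⟩ := hn
  by_contra hcon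
  push Not at hcon
  have hn0 : 0 < n := by omega
  have hnR : (40:ℝ) ≤ n := by exact_mod_cast hn40
  have hnpos : (0:ℝ) < n := by linarith
  have hlogpos : 0 < Real.log n := Real.log_pos (by linarith)
  set S := Real.sqrt (n * Real.log n) with hS
  have hSpos : 0 < S := Real.sqrt_pos.2 (by positivity)
  have hSsq : S ^ 2 = n * Real.log n := Real.sq_sqrt (by positivity)
  set L : ℝ := (n : ℝ) ^ (9 / 20 : ℝ) with hL
  have hL1 : 1 < L := Real.one_lt_rpow (by linarith) (by norm_num)
  have hLpos : 0 < L := by linarith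
  have hlogL : Real.log L = 9 / 20 * Real.log n := Real.log_rpow hnpos _
  have hD : 0 < (2 / 5 : ℝ) * S := by positivity
  set X : ℝ := L * ((2 / 5 : ℝ) * S) * (2 * ((2 / 5 : ℝ) * S) / (3 / 10)) ^ 2 with hX
  have hXpos : 0 < X := by positivity
  have hexp : (2.7182818283 : ℝ) < Real.exp 1 := Real.exp_one_gt_d9
  obtain ⟨R, hR0, hR1, hR2⟩ := core n hn0 N (by simp) hpair
    (c := 3 / 10) (D := (2 / 5 : ℝ) * S) (L := L) (h := 9 / 10 * n) (τ := 1 / 3)
    (V := 40 * n * X) (by norm_num) hD hL1 (by norm_num) (by positivity) hcon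
    (by
      rw [hlogL, div_le_iff₀ (by positivity)]
      have : 2 * ((2 / 5 : ℝ) * S) ^ 2 = 8 / 25 * (n * Real.log n) := by rw [mul_pow, hSsq]; ring
      rw [this]
      have h3 : 0 < (n:ℝ) * Real.log n := by positivity
      nlinarith)
    (by linarith)
    (by
      rw [← hX]
      have : 2 * (n:ℝ) * X / (40 * n * X) = 1 / 20 := by field_simp; norm_num
      rw [this]; norm_num)
  have hR3 : (n:ℝ) ^ 2 / 10 ≤ R := by nlinarith
  have hR4 : (n:ℝ) ^ 4 / 100 ≤ R ^ 2 := by
    have := pow_le_pow_left₀ (by positivity) hR3 2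
    calc (n:ℝ) ^ 4 / 100 = ((n:ℝ) ^ 2 / 10) ^ 2 := by ring
      _ ≤ R ^ 2 := this
  have hR5 : (n:ℝ) ^ 4 / 100 ≤ 2 * n * (40 * n * X) := hR4.trans hR1
  -- bound X
  have hS1 : S ≤ (n:ℝ) ^ (51 / 100 : ℝ) := by
    rw [hS, Real.sqrt_le_left (by positivity)]
    calc (n:ℝ) * Real.log n ≤ n * (n:ℝ) ^ (1 / 50 : ℝ) := by gcongr
      _ = (n:ℝ) ^ (1:ℝ) * (n:ℝ) ^ (1 / 50 : ℝ) := by rw [Real.rpow_one]
      _ = (n:ℝ) ^ (51 / 50 : ℝ) := by rw [← Real.rpow_add hnpos]; norm_num
      _ = ((n:ℝ) ^ (51 / 100 : ℝ)) ^ 2 := by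
          rw [← Real.rpow_natCast, ← Real.rpow_mul hnpos.le]; norm_num
  have hX1 : X ≤ 128 / 45 * (n:ℝ) ^ (99 / 50 : ℝ) := by
    calc X = 128 / 45 * (L * S ^ 3) := by rw [hX]; ring
      _ ≤ 128 / 45 * (L * ((n:ℝ) ^ (51 / 100 : ℝ)) ^ 3) := by gcongr
      _ = 128 / 45 * (n:ℝ) ^ (99 / 50 : ℝ) := by
          rw [hL, ← Real.rpow_natCast, ← Real.rpow_mul hnpos.le, ← Real.rpow_add hnpos]
          norm_num
  have hfin : (n:ℝ) ^ 2 ≤ 22756 * (n:ℝ) ^ (99 / 50 : ℝ) := by
    have h5 : (n:ℝ) ^ 4 / 100 ≤ 80 * (n:ℝ) ^ 2 * (128 / 45 * (n:ℝ) ^ (99 / 50 : ℝ)) := by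
      calc _ ≤ _ := hR5
        _ = 80 * (n:ℝ) ^ 2 * X := by ring
        _ ≤ _ := by gcongr
    have h6 : (n:ℝ) ^ 2 * (n:ℝ) ^ 2 ≤ (n:ℝ) ^ 2 * (22756 * (n:ℝ) ^ (99 / 50 : ℝ)) := by
      have h7 : (0:ℝ) ≤ (n:ℝ) ^ 2 * (n:ℝ) ^ (99 / 50 : ℝ) := by positivity
      nlinarith
    exact le_of_mul_le_mul_left h6 (by positivity)
  have hfin2 : (n:ℝ) ^ 2 = (n:ℝ) ^ (1 / 50 : ℝ) * (n:ℝ) ^ (99 / 50 : ℝ) := by
    rw [← Real.rpow_natCast, ← Real.rpow_add hnpos]; norm_num
  rw [hfin2] at hfin
  have hpos : 0 < (n:ℝ) ^ (99 / 50 : ℝ) := by positivity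
  have := le_of_mul_le_mul_right hfin hpos
  linarith

end LowerAsymp
section Upper

/-- neighbourhood of a vertex in the grouped construction -/
def NN {A : Type*} {D g : ℕ} (f : A → Fin D → Fin g) (a : A) : Finset (Fin D × Fin g) :=
  univ.filter fun jv => f a jv.1 = jv.2

lemma NN_card {A : Type*} {D g : ℕ} (f : A → Fin D → Fin g) (a : A) : (NN f a).card = D := by
  have : NN f a = (univ : Finset (Fin D)).image (fun j => (j, f a j)) := by
    ext ⟨j, v⟩
    simp [NN]
  rw [this, Finset.card_image_of_injective _ (fun i j h => (Prod.ext_iff.1 h).1)]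
  simp

/-- the number of pairs of rows whose agreements all lie in `T` -/
lemma card_pairs_le {D g : ℕ} (hg : 0 < g) (T : Finset (Fin D × Fin g)) :
    ((univ.filter fun uv : (Fin D → Fin g) × (Fin D → Fin g) =>
      ∀ j, uv.1 j = uv.2 j → (j, uv.1 j) ∈ T).card : ℝ) ≤
      ((g : ℝ) ^ D) ^ 2 * Real.exp (-(((D * g : ℕ) : ℝ) - T.card) / (g : ℝ) ^ 2) := by
  classical
  have hg' : (0:ℝ) < g := by exact_mod_cast hg
  let P : Fin D → Finset (Fin g × Fin g) := fun j =>
    univ.filter fun ab => ab.1 = ab.2 → (j, ab.1) ∈ T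
  let t : Fin D → ℕ := fun j => (univ.filter fun a : Fin g => (j, a) ∈ T).card
  have h1 : (univ.filter fun uv : (Fin D → Fin g) × (Fin D → Fin g) =>
      ∀ j, uv.1 j = uv.2 j → (j, uv.1 j) ∈ T).card ≤ (Fintype.piFinset P).card := by
    apply Finset.card_le_card_of_injOn (fun uv j => (uv.1 j, uv.2 j))
    · intro uv huv
      simp only [Finset.coe_filter, mem_univ, true_and, Set.mem_ofPred_eq] at huv
      simp only [Finset.mem_coe, Fintype.mem_piFinset, P, mem_filter, mem_univ, true_and]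
      exact huv
    · intro uv _ uv' _ h
      have h' : ∀ j, (uv.1 j, uv.2 j) = (uv'.1 j, uv'.2 j) := fun j => congrFun h j
      apply Prod.ext
      · funext j; exact (Prod.ext_iff.1 (h' j)).1
      · funext j; exact (Prod.ext_iff.1 (h' j)).2
  have h2 : ∀ j, ((P j).card : ℝ) ≤ (g:ℝ) ^ 2 * Real.exp (-((g : ℝ) - t j) / (g : ℝ) ^ 2) := by
    intro j
    have h3 : (P j).card + (univ.filter fun a : Fin g => (j, a) ∉ T).card ≤ g ^ 2 := by
      have h4 : (univ.filter fun a : Fin g => (j, a) ∉ T).card =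
          (univ.filter fun ab : Fin g × Fin g => ¬ (ab.1 = ab.2 → (j, ab.1) ∈ T)).card := by
        apply Finset.card_bij (fun a _ => (a, a))
        · intro a ha; simpa using ha
        · intro a _ b _ h; exact (Prod.ext_iff.1 h).1
        · rintro ⟨a, b⟩ hab
          simp only [mem_filter, mem_univ, true_and, Classical.not_imp] at hab
          exact ⟨a, by simpa using hab.2, by rw [hab.1]⟩
      rw [h4, Finset.card_filter_add_card_filter_not]
      simp [sq]
    have h5 : (univ.filter fun a : Fin g => (j, a) ∈ T).card +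
        (univ.filter fun a : Fin g => (j, a) ∉ T).card = g := by
      rw [Finset.card_filter_add_card_filter_not]; simp
    have h6 : ((P j).card : ℝ) ≤ (g:ℝ) ^ 2 - ((g:ℝ) - t j) := by
      have h3' : ((P j).card : ℝ) + ((univ.filter fun a : Fin g => (j, a) ∉ T).card : ℝ) ≤ (g:ℝ) ^ 2 := by
        exact_mod_cast h3
      have h5' : (t j : ℝ) + ((univ.filter fun a : Fin g => (j, a) ∉ T).card : ℝ) = g := by
        exact_mod_cast h5
      linarith
    have h7 := Real.add_one_le_exp (-((g : ℝ) - t j) / (g : ℝ) ^ 2)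
    calc ((P j).card : ℝ) ≤ (g:ℝ) ^ 2 * (-((g : ℝ) - t j) / (g : ℝ) ^ 2 + 1) := by
          refine h6.trans (le_of_eq ?_); field_simp; ring
      _ ≤ _ := mul_le_mul_of_nonneg_left h7 (by positivity)
  have h8 : ∑ j, (t j : ℝ) = T.card := by
    have : T.card = ∑ j, t j := by
      rw [Finset.card_eq_sum_card_fiberwise (f := fun x : Fin D × Fin g => x.1) (t := univ)
        (fun x _ => by simp)]
      apply Finset.sum_congr rfl
      intro j _
      symm
      apply Finset.card_bij (fun a _ => (j, a))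
      · intro a ha; simpa using ha
      · intro a _ b _ h; exact (Prod.ext_iff.1 h).2
      · rintro ⟨i, a⟩ hia
        simp only [mem_filter] at hia
        obtain ⟨h1, rfl⟩ := hia
        exact ⟨a, by simpa using h1, rfl⟩
    rw [this]; push_cast; rfl
  calc _ ≤ (((Fintype.piFinset P).card : ℕ) : ℝ) := by exact_mod_cast h1
    _ = ∏ j, ((P j).card : ℝ) := by rw [Fintype.card_piFinset]; push_cast; rfl
    _ ≤ ∏ j : Fin D, ((g:ℝ) ^ 2 * Real.exp (-((g : ℝ) - t j) / (g : ℝ) ^ 2)) :=
        Finset.prod_le_prod (fun j _ => by positivity) fun j _ => h2 j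
    _ = _ := by
        rw [Finset.prod_mul_distrib, ← Real.exp_sum, ← Finset.sum_div]
        simp only [neg_sub, Finset.sum_sub_distrib, Finset.sum_const, h8, nsmul_eq_mul]
        simp only [Finset.prod_const, Finset.card_univ, Fintype.card_fin]
        push_cast
        congr 1
        ring

/-- counting functions satisfying a relation on disjoint pairs -/
lemma card_rel_le {A X : Type*} [Fintype A] [DecidableEq A] [Fintype X] [DecidableEq X]
    (s : ℕ) (ι : Fin s × Fin 2 → A) (hι : Function.Injective ι) (Q : Finset (X × X)) :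
    (univ.filter fun f : A → X => ∀ i, (f (ι (i, 0)), f (ι (i, 1))) ∈ Q).card ≤
      Q.card ^ s * (Fintype.card X) ^ (Fintype.card A - 2 * s) := by
  classical
  let Rt := (Fin s → Q) × ({a : A // a ∉ Set.range ι} → X)
  have hR : Fintype.card Rt = Q.card ^ s * (Fintype.card X) ^ (Fintype.card A - 2 * s) := by
    simp only [Rt, Fintype.card_prod, Fintype.card_fun, Fintype.card_coe, Fintype.card_fin]
    congr 2
    have h1 : Fintype.card {a : A // a ∉ Set.range ι} = Fintype.card A - Fintype.card {a : A // a ∈ Set.range ι} :=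
      Fintype.card_subtype_compl _
    rw [h1]
    congr 1
    have h2 : Fintype.card {a : A // a ∈ Set.range ι} = Fintype.card (Fin s × Fin 2) :=
      Set.card_range_of_injective hι
    rw [h2]; simp [mul_comm]
  rw [← hR, ← Fintype.card_coe]
  refine Fintype.card_le_of_injective
    (fun f => (fun i => ⟨(f.1 (ι (i, 0)), f.1 (ι (i, 1))), (Finset.mem_filter.1 f.2).2 i⟩,
      fun a => f.1 a.1)) ?_
  rintro ⟨f, hf⟩ ⟨f', hf'⟩ h
  have h1 := (Prod.ext_iff.1 h).1
  have h2 := (Prod.ext_iff.1 h).2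
  simp only at h1 h2
  apply Subtype.ext
  funext a
  by_cases ha : a ∈ Set.range ι
  · obtain ⟨⟨i, l⟩, rfl⟩ := ha
    have h3 := congrArg Subtype.val (congrFun h1 i)
    simp only [Prod.mk.injEq] at h3
    fin_cases l
    · exact h3.1
    · exact h3.2
  · exact congrFun h2 ⟨a, ha⟩


/-- bad assignments for given pairs and a given small set of vertices -/
noncomputable def Bad {A : Type*} [Fintype A] [DecidableEq A] {D g : ℕ} (s : ℕ)
    (z : (Fin s × Fin 2 → A) × (Fin s → Fin D × Fin g)) : Finset (A → Fin D → Fin g) :=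
  univ.filter fun f => Function.Injective z.1 ∧
    ∀ i, NN f (z.1 (i, 0)) ∩ NN f (z.1 (i, 1)) ⊆ univ.image z.2

lemma bad_card {A : Type*} [Fintype A] [DecidableEq A] {D g n s : ℕ} (hg : 0 < g)
    (hA : Fintype.card A = 2 * n) (hDg : 2 * n ≤ D * g) (hs : s ≤ n)
    (z : (Fin s × Fin 2 → A) × (Fin s → Fin D × Fin g)) :
    ((Bad s z).card : ℝ) ≤
      ((g : ℝ) ^ D) ^ (2 * n) * (Real.exp (-(n : ℝ) / (g : ℝ) ^ 2)) ^ s := by
  classical
  have hg' : (0:ℝ) < g := by exact_mod_cast hg
  by_cases hinj : Function.Injective z.1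
  · set T : Finset (Fin D × Fin g) := univ.image z.2 with hT
    have hTs : T.card ≤ s := by
      have := Finset.card_image_le (s := (univ : Finset (Fin s))) (f := z.2)
      simpa using this
    set Q : Finset ((Fin D → Fin g) × (Fin D → Fin g)) :=
      univ.filter fun uv => ∀ j, uv.1 j = uv.2 j → (j, uv.1 j) ∈ T with hQ
    have h1 : Bad s z ⊆ univ.filter fun f : A → Fin D → Fin g =>
        ∀ i, (f (z.1 (i, 0)), f (z.1 (i, 1))) ∈ Q := by
      intro f hf
      simp only [Bad, mem_filter, mem_univ, true_and, hQ] at hf ⊢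
      intro i j hij
      apply hf.2 i
      simp only [NN, mem_inter, mem_filter, mem_univ, true_and]
      exact hij.symm
    have h2 := (Finset.card_le_card h1).trans (card_rel_le s z.1 hinj Q)
    have h3 := card_pairs_le (D := D) hg T
    rw [← hQ] at h3
    have h4 : (Q.card : ℝ) ≤ ((g : ℝ) ^ D) ^ 2 * Real.exp (-(n : ℝ) / (g : ℝ) ^ 2) := by
      refine h3.trans ?_
      apply mul_le_mul_of_nonneg_left _ (by positivity)
      apply Real.exp_le_exp.2
      apply div_le_div_of_nonneg_right _ (by positivity)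
      have h5 : (T.card : ℝ) ≤ n := by exact_mod_cast hTs.trans hs
      have h6 : (2 * (n:ℝ)) ≤ ((D * g : ℕ) : ℝ) := by exact_mod_cast hDg
      linarith
    have hX : Fintype.card (Fin D → Fin g) = g ^ D := by simp
    rw [hX, hA] at h2
    calc ((Bad s z).card : ℝ) ≤ ((Q.card ^ s * (g ^ D) ^ (2 * n - 2 * s) : ℕ) : ℝ) := by
          exact_mod_cast h2
      _ = (Q.card : ℝ) ^ s * ((g:ℝ) ^ D) ^ (2 * n - 2 * s) := by push_cast; ring
      _ ≤ (((g : ℝ) ^ D) ^ 2 * Real.exp (-(n : ℝ) / (g : ℝ) ^ 2)) ^ s *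
            ((g:ℝ) ^ D) ^ (2 * n - 2 * s) := by
          apply mul_le_mul_of_nonneg_right _ (by positivity)
          exact pow_le_pow_left₀ (by positivity) h4 s
      _ = ((g : ℝ) ^ D) ^ (2 * s + (2 * n - 2 * s)) * (Real.exp (-(n : ℝ) / (g : ℝ) ^ 2)) ^ s := by
          rw [mul_pow, pow_add, ← pow_mul]; ring
      _ = _ := by
          congr 2; omega
  · have : Bad s z = ∅ := by
      apply Finset.eq_empty_of_forall_notMem
      intro f hf
      exact hinj (Finset.mem_filter.1 hf).2.1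
    rw [this]; simp; positivity

lemma exists_range_cover {β : Type*} [DecidableEq β] (b0 : β) (T : Finset β) (s : ℕ)
    (h : T.card ≤ s) : ∃ τ : Fin s → β, T ⊆ univ.image τ := by
  classical
  refine ⟨fun i => if h : i.1 < T.card then (T.equivFin.symm ⟨i.1, h⟩ : β) else b0, ?_⟩
  intro b hb
  rw [Finset.mem_image]
  have h1 : (T.equivFin ⟨b, hb⟩).1 < T.card := (T.equivFin ⟨b, hb⟩).2
  refine ⟨⟨(T.equivFin ⟨b, hb⟩).1, lt_of_lt_of_le h1 h⟩, mem_univ _, ?_⟩
  simp

lemma upper_core {n D g : ℕ} (hn : 0 < n) (hg : 0 < g) (hDg : 2 * n ≤ D * g)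
    (hsmall : (2 * (n:ℝ)) ^ 2 * ((D * g : ℕ) : ℝ) * Real.exp (-(n : ℝ) / (g : ℝ) ^ 2) ≤ 1 / 2) :
    ∃ N : Fin (2 * n) → Finset (Fin D × Fin g), (∀ a, (N a).card = D) ∧
      ∀ e : Fin n × Fin 2 ≃ Fin (2 * n), ∃ k : Fin n → Fin D × Fin g, Function.Injective k ∧
      ∀ s, k s ∈ N (e (s, 0)) ∧ k s ∈ N (e (s, 1)) := by
  classical
  have hg' : (0:ℝ) < g := by exact_mod_cast hg
  have hDpos : 0 < D * g := by omega
  -- there is a good assignment
  obtain ⟨f, hf⟩ : ∃ f : Fin (2 * n) → Fin D → Fin g, ∀ s ∈ Finset.Icc 1 n,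
      ∀ z : (Fin s × Fin 2 → Fin (2 * n)) × (Fin s → Fin D × Fin g), f ∉ Bad s z := by
    by_contra hcon
    push Not at hcon
    have h1 : (univ : Finset (Fin (2 * n) → Fin D → Fin g)) ⊆
        (Finset.Icc 1 n).biUnion fun s => univ.biUnion fun
          z : (Fin s × Fin 2 → Fin (2 * n)) × (Fin s → Fin D × Fin g) => Bad s z := by
      intro f _
      obtain ⟨s, hs, z, hz⟩ := hcon f
      exact Finset.mem_biUnion.2 ⟨s, hs, Finset.mem_biUnion.2 ⟨z, mem_univ _, hz⟩⟩
    have h2 := Finset.card_le_card h1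
    have h3 : (((Finset.Icc 1 n).biUnion fun s => univ.biUnion fun
          z : (Fin s × Fin 2 → Fin (2 * n)) × (Fin s → Fin D × Fin g) => Bad s z).card : ℝ) ≤
        ∑ s ∈ Finset.Icc 1 n, ((g : ℝ) ^ D) ^ (2 * n) * (1 / 2 : ℝ) ^ s := by
      calc (((Finset.Icc 1 n).biUnion fun s => univ.biUnion fun
          z : (Fin s × Fin 2 → Fin (2 * n)) × (Fin s → Fin D × Fin g) => Bad s z).card : ℝ)
          ≤ ((∑ s ∈ Finset.Icc 1 n, (univ.biUnion fun
          z : (Fin s × Fin 2 → Fin (2 * n)) × (Fin s → Fin D × Fin g) => Bad s z).card : ℕ) : ℝ) := by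
            exact_mod_cast Finset.card_biUnion_le
        _ = ∑ s ∈ Finset.Icc 1 n, ((univ.biUnion fun
          z : (Fin s × Fin 2 → Fin (2 * n)) × (Fin s → Fin D × Fin g) => Bad s z).card : ℝ) := by
            push_cast; rfl
        _ ≤ ∑ s ∈ Finset.Icc 1 n, ((g : ℝ) ^ D) ^ (2 * n) * (1 / 2 : ℝ) ^ s := by
            apply Finset.sum_le_sum
            intro s hs
            have hsn : s ≤ n := (Finset.mem_Icc.1 hs).2
            calc ((univ.biUnion fun
                z : (Fin s × Fin 2 → Fin (2 * n)) × (Fin s → Fin D × Fin g) => Bad s z).card : ℝ)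
                ≤ ((∑ z : (Fin s × Fin 2 → Fin (2 * n)) × (Fin s → Fin D × Fin g),
                    (Bad s z).card : ℕ) : ℝ) := by
                  exact_mod_cast Finset.card_biUnion_le
              _ = ∑ z : (Fin s × Fin 2 → Fin (2 * n)) × (Fin s → Fin D × Fin g),
                    ((Bad s z).card : ℝ) := by push_cast; rfl
              _ ≤ ∑ z : (Fin s × Fin 2 → Fin (2 * n)) × (Fin s → Fin D × Fin g),
                    ((g : ℝ) ^ D) ^ (2 * n) * (Real.exp (-(n : ℝ) / (g : ℝ) ^ 2)) ^ s :=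
                  Finset.sum_le_sum fun z _ => bad_card hg (by simp) hDg hsn z
              _ = ((g : ℝ) ^ D) ^ (2 * n) * ((2 * (n:ℝ)) ^ 2 * ((D * g : ℕ) : ℝ) *
                    Real.exp (-(n : ℝ) / (g : ℝ) ^ 2)) ^ s := by
                  rw [Finset.sum_const, nsmul_eq_mul, Finset.card_univ]
                  simp only [Fintype.card_prod, Fintype.card_fun, Fintype.card_fin]
                  push_cast
                  have h24 : (4:ℝ) ^ s = 2 ^ (s * 2) := by rw [mul_comm, pow_mul]; norm_num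
                  ring_nf
                  rw [h24]
              _ ≤ ((g : ℝ) ^ D) ^ (2 * n) * (1 / 2 : ℝ) ^ s := by
                  apply mul_le_mul_of_nonneg_left _ (by positivity)
                  exact pow_le_pow_left₀ (by positivity) hsmall s
    have h4 : ∑ s ∈ Finset.Icc 1 n, (1 / 2 : ℝ) ^ s < 1 := by
      have h5 : ∀ m : ℕ, ∑ s ∈ Finset.Icc 1 m, (1 / 2 : ℝ) ^ s = 1 - (1 / 2) ^ m := by
        intro m
        induction m with
        | zero => simp
        | succ m ih => rw [Finset.sum_Icc_succ_top (by omega), ih]; ring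
      rw [h5]
      have : (0:ℝ) < (1 / 2) ^ n := by positivity
      linarith
    rw [← Finset.mul_sum] at h3
    have h6 : ((univ : Finset (Fin (2 * n) → Fin D → Fin g)).card : ℝ) = ((g : ℝ) ^ D) ^ (2 * n) := by
      rw [Finset.card_univ]
      simp
    have h7 : ((univ : Finset (Fin (2 * n) → Fin D → Fin g)).card : ℝ) ≤
      ((g : ℝ) ^ D) ^ (2 * n) * ∑ s ∈ Finset.Icc 1 n, (1 / 2 : ℝ) ^ s := by
      refine le_trans ?_ h3
      exact_mod_cast h2
    rw [h6] at h7
    have h8 : (0:ℝ) < ((g : ℝ) ^ D) ^ (2 * n) := by positivity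
    nlinarith
  refine ⟨NN f, NN_card f, ?_⟩
  intro e
  have hall := (Finset.all_card_le_biUnion_card_iff_exists_injective
    (fun s : Fin n => NN f (e (s, 0)) ∩ NN f (e (s, 1)))).1 ?_
  · obtain ⟨k, hk1, hk2⟩ := hall
    exact ⟨k, hk1, fun s => Finset.mem_inter.1 (hk2 s)⟩
  · intro J
    by_contra hlt
    push Not at hlt
    set T := J.biUnion fun s => NN f (e (s, 0)) ∩ NN f (e (s, 1)) with hT
    have hJn : J.card ≤ n := by
      have := Finset.card_le_univ J
      simpa using this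
    have hJ1 : 1 ≤ J.card := by omega
    have b0 : Fin D × Fin g := by
      have h1 : 0 < D := by
        rcases Nat.eq_zero_or_pos D with h | h
        · subst h; simp at hDpos
        · exact h
      exact (⟨0, h1⟩, ⟨0, hg⟩)
    obtain ⟨τ, hτ⟩ := exists_range_cover b0 T J.card hlt.le
    let ι : Fin J.card × Fin 2 → Fin (2 * n) := fun il => e ((J.equivFin.symm il.1 : Fin n), il.2)
    have hι : Function.Injective ι := by
      rintro ⟨i, l⟩ ⟨i', l'⟩ h
      have h1 := e.injective h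
      simp only [Prod.mk.injEq] at h1
      have h2 := J.equivFin.symm.injective (Subtype.ext h1.1)
      rw [h2, h1.2]
    apply hf J.card (Finset.mem_Icc.2 ⟨hJ1, hJn⟩) (ι, τ)
    simp only [Bad, mem_filter, mem_univ, true_and]
    refine ⟨hι, fun i => ?_⟩
    refine Finset.Subset.trans ?_ hτ
    exact Finset.subset_biUnion_of_mem (fun s : Fin n => NN f (e (s, 0)) ∩ NN f (e (s, 1)))
      (J.equivFin.symm i).2

end Upper

section UpperAsymp
open Filter

lemma upper_asymp : ∀ᶠ n : ℕ in atTop, ∃ D g : ℕ, n ≤ D * g ∧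
    (D : ℝ) ≤ (7 / 2 : ℝ) * Real.sqrt (n * Real.log n) ∧
    ∃ N : Fin (2 * n) → Finset (Fin D × Fin g), (∀ a, (N a).card = D) ∧
      ∀ e : Fin n × Fin 2 ≃ Fin (2 * n), ∃ k : Fin n → Fin D × Fin g, Function.Injective k ∧
      ∀ s, k s ∈ N (e (s, 0)) ∧ k s ∈ N (e (s, 1)) := by
  -- radius tends to infinity
  have ev1 : ∀ᶠ x : ℝ in atTop, (3.01 * 1000 ^ 2) * Real.log x ≤ x := by
    have h := Real.isLittleO_log_id_atTop
    have h2 := h.bound (c := 1 / (3.01 * 1000 ^ 2)) (by norm_num)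
    filter_upwards [h2, eventually_ge_atTop (1:ℝ)] with x hx hx1
    rw [Real.norm_of_nonneg (Real.log_nonneg hx1), id, Real.norm_of_nonneg (by linarith)] at hx
    have := mul_le_mul_of_nonneg_left hx (show (0:ℝ) ≤ 3.01 * 1000 ^ 2 by norm_num)
    calc (3.01 * 1000 ^ 2) * Real.log x ≤ 3.01 * 1000 ^ 2 * (1 / (3.01 * 1000 ^ 2) * x) := this
      _ = x := by field_simp
  have ev2 : ∀ᶠ x : ℝ in atTop, Real.log 24 ≤ 0.01 * Real.log x := by
    filter_upwards [Real.tendsto_log_atTop.eventually (eventually_ge_atTop (100 * Real.log 24))]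
      with x hx
    linarith
  have ev := tendsto_natCast_atTop_atTop (R := ℝ) |>.eventually (ev1.and ev2)
  filter_upwards [ev, eventually_ge_atTop 1000000] with n hn hnbig
  obtain ⟨h1, h2⟩ := hn
  have hnR : (1000000:ℝ) ≤ n := by exact_mod_cast hnbig
  have hnpos : (0:ℝ) < n := by linarith
  have hlog1 : 1 ≤ Real.log n := by
    rw [Real.le_log_iff_exp_le hnpos]
    have := Real.exp_one_lt_d9
    linarith
  have hlogpos : 0 < Real.log n := by linarith
  set S := Real.sqrt (n * Real.log n) with hS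
  have hSpos : 0 < S := Real.sqrt_pos.2 (by positivity)
  have hSsq : S ^ 2 = n * Real.log n := Real.sq_sqrt (by positivity)
  set r := Real.sqrt (n / (3.01 * Real.log n)) with hr
  have hrsq : r ^ 2 = n / (3.01 * Real.log n) := Real.sq_sqrt (by positivity)
  have hr1000 : 1000 ≤ r := by
    rw [hr]
    apply Real.le_sqrt_of_sq_le
    rw [le_div_iff₀ (by positivity)]
    linarith
  set g := ⌊r⌋₊ with hg
  have hg1 : (g:ℝ) ≤ r := Nat.floor_le (by linarith)
  have hg2 : r < g + 1 := Nat.lt_floor_add_one r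
  have hgpos : 0 < g := by
    rw [Nat.pos_iff_ne_zero]; intro h; rw [h] at hg2; norm_num at hg2; linarith
  have hgR : (0:ℝ) < g := by exact_mod_cast hgpos
  have hg3 : 999 / 1000 * r ≤ g := by linarith
  set D := ⌈(2 * n : ℝ) / g⌉₊ with hDdef
  have hD1 : (2 * n : ℝ) / g ≤ D := Nat.le_ceil _
  have hD2 : (D:ℝ) < (2 * n : ℝ) / g + 1 := Nat.ceil_lt_add_one (by positivity)
  have hDg : 2 * n ≤ D * g := by
    rw [div_le_iff₀ hgR] at hD1
    exact_mod_cast hD1
  have hDg2 : ((D * g : ℕ) : ℝ) ≤ 3 * n := by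
    push_cast
    have h3 : (D:ℝ) * g < 2 * n + g := by
      calc (D:ℝ) * g < ((2 * n : ℝ) / g + 1) * g := mul_lt_mul_of_pos_right hD2 hgR
        _ = 2 * n + g := by field_simp
    have h4 : (g:ℝ) ≤ n := by
      have : r ≤ r ^ 2 := by nlinarith
      have h5 : r ^ 2 ≤ n := by
        rw [hrsq]; apply div_le_self hnpos.le; nlinarith
      linarith
    linarith
  refine ⟨D, g, by omega, ?_, ?_⟩
  · -- degree bound
    have hr2 : r * S * r = (n:ℝ) * r / Real.sqrt 3.01 := by
      have : r * S = n / Real.sqrt 3.01 := by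
        rw [hr, hS, ← Real.sqrt_mul (by positivity)]
        have : (n:ℝ) / (3.01 * Real.log n) * (n * Real.log n) = n ^ 2 / 3.01 := by field_simp
        rw [this, Real.sqrt_div (by positivity), Real.sqrt_sq hnpos.le]
      rw [this]; ring
    have hrpos : 0 < r := by linarith
    have hrS : r * S = n / Real.sqrt 3.01 := by
      rw [hr, hS, ← Real.sqrt_mul (by positivity)]
      have : (n:ℝ) / (3.01 * Real.log n) * (n * Real.log n) = n ^ 2 / 3.01 := by field_simp
      rw [this, Real.sqrt_div (by positivity), Real.sqrt_sq hnpos.le]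
    have hsq : Real.sqrt 3.01 ≤ 1.735 := by
      rw [Real.sqrt_le_left (by norm_num)]; norm_num
    have hsqpos : 0 < Real.sqrt 3.01 := Real.sqrt_pos.2 (by norm_num)
    have hn2 : (n:ℝ) ≤ 1.735 * (r * S) := by
      rw [hrS]
      rw [mul_div_assoc', le_div_iff₀ hsqpos]
      nlinarith
    have h3 : (2 * n : ℝ) / g ≤ 3.48 * S := by
      rw [div_le_iff₀ hgR]
      calc (2 * n : ℝ) ≤ 2 * (1.735 * (r * S)) := by linarith
        _ ≤ 3.48 * S * (999 / 1000 * r) := by nlinarith [mul_pos hrpos hSpos]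
        _ ≤ 3.48 * S * g := by gcongr
    have hS1000 : 1000 ≤ S := by
      rw [hS]; apply Real.le_sqrt_of_sq_le; nlinarith
    linarith
  · apply upper_core (by omega) hgpos hDg
    have h3 : 3 * Real.log n + Real.log 24 ≤ n / (g:ℝ) ^ 2 := by
      rw [le_div_iff₀ (by positivity)]
      calc (3 * Real.log n + Real.log 24) * (g:ℝ) ^ 2 ≤ (3.01 * Real.log n) * r ^ 2 := by
            apply mul_le_mul (by linarith) (pow_le_pow_left₀ hgR.le hg1 2) (by positivity)
              (by positivity)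
        _ = (n:ℝ) := by rw [hrsq]; field_simp
    have h4 : Real.exp (-(n:ℝ) / (g:ℝ) ^ 2) ≤ Real.exp (-(3 * Real.log n + Real.log 24)) := by
      apply Real.exp_le_exp.2
      rw [neg_div]; linarith
    have h5 : Real.exp (-(3 * Real.log n + Real.log 24)) = 1 / (24 * (n:ℝ) ^ 3) := by
      rw [Real.exp_neg, Real.exp_add, Real.exp_log (by norm_num),
        show 3 * Real.log n = Real.log ((n:ℝ) ^ 3) by rw [Real.log_pow]; norm_num,
        Real.exp_log (by positivity)]
      field_simp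
    calc (2 * (n:ℝ)) ^ 2 * ((D * g : ℕ) : ℝ) * Real.exp (-(n : ℝ) / (g : ℝ) ^ 2)
        ≤ (2 * (n:ℝ)) ^ 2 * (3 * n) * (1 / (24 * (n:ℝ) ^ 3)) := by
          rw [← h5]; gcongr
      _ = 1 / 2 := by field_simp; norm_num
end UpperAsymp

section Final
open Filter

/-- the complete bipartite graph has the pairing property when `n ≤ m` -/
lemma complete_pairing {n m : ℕ} (h : n ≤ m) :
    PairingProperty n m (completeBipartiteGraph (Fin (2 * n)) (Fin m)) := by
  refine ⟨le_rfl, fun e => ⟨Fin.castLE h, Fin.castLE_injective h, fun s => ?_⟩⟩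
  simp [completeBipartiteGraph]

lemma lamTwo_set_nonempty {n m : ℕ} (h : n ≤ m) :
    {d : ℕ | ∃ G : SimpleGraph (Fin (2 * n) ⊕ Fin m), PairingProperty n m G ∧
      maxDegA G = d}.Nonempty :=
  ⟨_, _, complete_pairing h, rfl⟩

lemma lam_set_nonempty (n : ℕ) : {d : ℕ | ∃ m : ℕ, n ≤ m ∧ lamTwo n m = d}.Nonempty :=
  ⟨_, n, le_rfl, rfl⟩

/-- `λ(n)` is attained by a graph with the pairing property -/
lemma exists_optimal (n : ℕ) : ∃ m : ℕ, n ≤ m ∧ ∃ G : SimpleGraph (Fin (2 * n) ⊕ Fin m),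
    PairingProperty n m G ∧ maxDegA G = lam n := by
  obtain ⟨m, hm, h⟩ := Nat.sInf_mem (lam_set_nonempty n)
  obtain ⟨G, hG, h'⟩ := Nat.sInf_mem (lamTwo_set_nonempty (n := n) (m := m) hm)
  refine ⟨m, hm, G, hG, ?_⟩
  rw [h']
  exact h

/-- `λ(n)` is at most the maximum degree of any graph with the pairing property -/
lemma lam_le {n m : ℕ} (hm : n ≤ m) {G : SimpleGraph (Fin (2 * n) ⊕ Fin m)}
    (hG : PairingProperty n m G) : lam n ≤ maxDegA G :=
  (Nat.sInf_le (show lamTwo n m ∈ {d : ℕ | ∃ m : ℕ, n ≤ m ∧ lamTwo n m = d} from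
    ⟨m, hm, rfl⟩)).trans (Nat.sInf_le ⟨G, hG, rfl⟩)

/-- **Order of growth of `λ(n)`.** For all sufficiently large `n`,
`(2/5) √(n log n) ≤ λ(n) ≤ (7/2) √(n log n)`; in particular `λ(n)` has order `√(n log n)`. -/
theorem result : ∀ᶠ n : ℕ in atTop,
    (2 / 5 : ℝ) * Real.sqrt (n * Real.log n) ≤ (lam n : ℝ) ∧
      (lam n : ℝ) ≤ (7 / 2 : ℝ) * Real.sqrt (n * Real.log n) := by
  classical
  filter_upwards [lower_asymp, upper_asymp] with n hlow hup
  constructor
  · obtain ⟨m, -, G, hG, hdeg⟩ := exists_optimal n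
    let N : Fin (2 * n) → Finset (Fin m) := fun a =>
      univ.filter fun b => G.Adj (Sum.inl a) (Sum.inr b)
    obtain ⟨a, ha⟩ := hlow m N (by
      intro e
      obtain ⟨k, hk1, hk2⟩ := hG.2 e
      exact ⟨k, hk1, fun s => by simpa [N] using hk2 s⟩)
    have h1 : (N a).card ≤ maxDegA G := by
      refine le_trans ?_ (Finset.le_sup (f := fun a : Fin (2 * n) =>
        (G.neighborSet (Sum.inl a)).ncard) (mem_univ a))
      rw [← Set.ncard_coe_finset (N a), ← Set.ncard_image_of_injective _ Sum.inr_injective]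
      apply Set.ncard_le_ncard _ (Set.toFinite _)
      rintro _ ⟨b, hb, rfl⟩
      simpa [N] using hb
    have h2 : ((N a).card : ℝ) ≤ (lam n : ℝ) := by
      rw [← hdeg]; exact_mod_cast h1
    linarith
  · obtain ⟨D, g, hDg, hD, N, hN1, hN2⟩ := hup
    let E : Fin D × Fin g ≃ Fin (D * g) := finProdFinEquiv
    let G : SimpleGraph (Fin (2 * n) ⊕ Fin (D * g)) :=
      { Adj := fun x y => (∃ a b, x = Sum.inl a ∧ y = Sum.inr (E b) ∧ b ∈ N a) ∨
          (∃ a b, y = Sum.inl a ∧ x = Sum.inr (E b) ∧ b ∈ N a)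
        symm := ⟨fun x y h => h.symm⟩
        loopless := ⟨fun x h => by
          rcases h with ⟨a, b, h1, h2, -⟩ | ⟨a, b, h1, h2, -⟩ <;> (rw [h1] at h2; cases h2)⟩ }
    have hGadj : ∀ a b, G.Adj (Sum.inl a) (Sum.inr (E b)) ↔ b ∈ N a := by
      intro a b
      constructor
      · rintro (⟨a', b', h1, h2, h3⟩ | ⟨a', b', h1, h2, h3⟩)
        · cases Sum.inl_injective h1
          have := E.injective (Sum.inr_injective h2)
          rw [this]; exact h3
        · cases h1
      · intro h; exact Or.inl ⟨a, b, rfl, rfl, h⟩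
    have hG : PairingProperty n (D * g) G := by
      constructor
      · intro x y h
        rcases h with ⟨a, b, rfl, rfl, -⟩ | ⟨a, b, rfl, rfl, -⟩ <;> simp [completeBipartiteGraph]
      · intro e
        obtain ⟨k, hk1, hk2⟩ := hN2 e
        refine ⟨fun s => E (k s), E.injective.comp hk1, fun s => ?_⟩
        exact ⟨(hGadj _ _).2 (hk2 s).1, (hGadj _ _).2 (hk2 s).2⟩
    have hmax : maxDegA G ≤ D := by
      apply Finset.sup_le
      intro a _
      have : G.neighborSet (Sum.inl a) ⊆ (fun b => (Sum.inr (E b) : Fin (2 * n) ⊕ Fin (D * g))) ''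
          (N a : Set (Fin D × Fin g)) := by
        intro y hy
        rcases hy with ⟨a', b', h1, h2, h3⟩ | ⟨a', b', h1, h2, h3⟩
        · cases Sum.inl_injective h1
          exact ⟨b', h3, h2.symm⟩
        · cases h2
      calc (G.neighborSet (Sum.inl a)).ncard ≤ _ := Set.ncard_le_ncard this (Set.toFinite _)
        _ ≤ (N a : Set (Fin D × Fin g)).ncard := Set.ncard_image_le (Set.toFinite _)
        _ = D := by rw [Set.ncard_coe_finset, hN1]
    have h1 : (lam n : ℝ) ≤ D := by exact_mod_cast (lam_le hDg hG).trans hmax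
    exact h1.trans hD

/-- The same result in the language of asymptotic equivalence up to constants. -/
theorem isTheta_lam :
    (fun n : ℕ => (lam n : ℝ)) =Θ[atTop] (fun n : ℕ => Real.sqrt (n * Real.log n)) := by
  constructor
  · apply Asymptotics.IsBigO.of_bound (7 / 2)
    filter_upwards [result] with n hn
    rw [Real.norm_of_nonneg (Nat.cast_nonneg _), Real.norm_of_nonneg (Real.sqrt_nonneg _)]
    exact hn.2
  · apply Asymptotics.IsBigO.of_bound (5 / 2)
    filter_upwards [result] with n hn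
    rw [Real.norm_of_nonneg (Nat.cast_nonneg _), Real.norm_of_nonneg (Real.sqrt_nonneg _)]
    linarith [hn.1]

end Final

end Pool.Agent.Results.MP_7e7d68_co.OrderOfGrowth
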